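import Mathlib

set_option autoImplicit false

/-!
The arithmetic of the indecomposable regular families of subsets of a set with three or four elements.
-/

namespace Pool.Agent.J4.H16.FL

theorem arith3 {n1 n2 n3 n4 n5 n6 n7 D : ℕ} (hD : 1 ≤ D)
    (e0 : n1 + n3 + n5 + n7 = D)
    (e1 : n2 + n3 + n6 + n7 = D)
    (e2 : n4 + n5 + n6 + n7 = D)
    {P : Prop}
    (c0 : 1 ≤ n7 → P)
    (c1 : 1 ≤ n1 → 1 ≤ n6 → P)
    (c2 : 1 ≤ n2 → 1 ≤ n5 → P)
    (c3 : 1 ≤ n4 → 1 ≤ n3 → P)
    (c4 : 1 ≤ n1 → 1 ≤ n2 → 1 ≤ n4 → P)
    (c5 : 1 ≤ n3 → 1 ≤ n5 → 1 ≤ n6 → P) : P := by
  rcases Nat.lt_or_ge n7 1 with h7 | h7
  · rcases Nat.lt_or_ge n1 1 with h1 | h1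
    · rcases Nat.lt_or_ge n2 1 with h2 | h2
      · rcases Nat.lt_or_ge n3 1 with h3 | h3
        · omega
        · rcases Nat.lt_or_ge n4 1 with h4 | h4
          · exact c5 (by omega) (by omega) (by omega)
          · exact c3 h4 h3
      · rcases Nat.lt_or_ge n5 1 with h5 | h5
        · rcases Nat.lt_or_ge n3 1 with h3 | h3
          · omega
          · rcases Nat.lt_or_ge n4 1 with h4 | h4
            · omega
            · exact c3 h4 h3
        · exact c2 h2 h5
    · rcases Nat.lt_or_ge n6 1 with h6 | h6
      · rcases Nat.lt_or_ge n2 1 with h2 | h2
        · rcases Nat.lt_or_ge n4 1 with h4 | h4
          · omega
          · exact c3 h4 (by omega)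
        · rcases Nat.lt_or_ge n4 1 with h4 | h4
          · exact c2 h2 (by omega)
          · exact c4 h1 h2 h4
      · exact c1 h1 h6
  · exact c0 h7

theorem arith4 {n1 n2 n3 n4 n5 n6 n7 n8 n9 n10 n11 n12 n13 n14 n15 D : ℕ} (hD : 1 ≤ D)
    (e0 : n1 + n3 + n5 + n7 + n9 + n11 + n13 + n15 = D)
    (e1 : n2 + n3 + n6 + n7 + n10 + n11 + n14 + n15 = D)
    (e2 : n4 + n5 + n6 + n7 + n12 + n13 + n14 + n15 = D)
    (e3 : n8 + n9 + n10 + n11 + n12 + n13 + n14 + n15 = D)
    {P : Prop}
    (c0 : 1 ≤ n15 → P)
    (c1 : 1 ≤ n4 → 1 ≤ n11 → P)
    (c2 : 1 ≤ n7 → 1 ≤ n8 → P)
    (c3 : 1 ≤ n3 → 1 ≤ n4 → 1 ≤ n8 → P)
    (c4 : 1 ≤ n5 → 1 ≤ n10 → P)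
    (c5 : 1 ≤ n1 → 1 ≤ n14 → P)
    (c6 : 1 ≤ n6 → 1 ≤ n9 → P)
    (c7 : 1 ≤ n1 → 1 ≤ n2 → 1 ≤ n4 → 1 ≤ n8 → P)
    (c8 : 1 ≤ n1 → 1 ≤ n6 → 1 ≤ n8 → P)
    (c9 : 1 ≤ n1 → 1 ≤ n4 → 1 ≤ n10 → P)
    (c10 : 1 ≤ n2 → 1 ≤ n4 → 1 ≤ n9 → P)
    (c11 : 1 ≤ n2 → 1 ≤ n5 → 1 ≤ n8 → P)
    (c12 : 1 ≤ n1 → 1 ≤ n2 → 1 ≤ n12 → P)
    (c13 : 1 ≤ n3 → 1 ≤ n12 → P)
    (c14 : 1 ≤ n2 → 1 ≤ n13 → P)
    (c15 : 2 ≤ n1 → 1 ≤ n6 → 1 ≤ n10 → 1 ≤ n12 → P)
    (c16 : 1 ≤ n1 → 1 ≤ n6 → 1 ≤ n11 → 1 ≤ n12 → P)
    (c17 : 1 ≤ n2 → 1 ≤ n7 → 1 ≤ n9 → 1 ≤ n12 → P)
    (c18 : 1 ≤ n1 → 1 ≤ n6 → 1 ≤ n10 → 1 ≤ n13 → P)
    (c19 : 1 ≤ n1 → 1 ≤ n7 → 1 ≤ n10 → 1 ≤ n12 → P)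
    (c20 : 1 ≤ n5 → 1 ≤ n11 → 1 ≤ n14 → P)
    (c21 : 1 ≤ n2 → 1 ≤ n5 → 1 ≤ n11 → 1 ≤ n12 → P)
    (c22 : 1 ≤ n7 → 1 ≤ n11 → 1 ≤ n12 → P)
    (c23 : 1 ≤ n3 → 1 ≤ n13 → 1 ≤ n14 → P)
    (c24 : 1 ≤ n3 → 1 ≤ n5 → 1 ≤ n6 → 2 ≤ n8 → P)
    (c25 : 1 ≤ n3 → 1 ≤ n4 → 1 ≤ n10 → 1 ≤ n13 → P)
    (c26 : 1 ≤ n6 → 1 ≤ n11 → 1 ≤ n13 → P)
    (c27 : 1 ≤ n5 → 1 ≤ n6 → 1 ≤ n8 → 1 ≤ n11 → P)
    (c28 : 1 ≤ n3 → 1 ≤ n5 → 1 ≤ n8 → 1 ≤ n14 → P)
    (c29 : 1 ≤ n2 → 1 ≤ n5 → 1 ≤ n9 → 1 ≤ n14 → P)
    (c30 : 1 ≤ n7 → 1 ≤ n9 → 1 ≤ n14 → P)
    (c31 : 1 ≤ n3 → 1 ≤ n6 → 1 ≤ n8 → 1 ≤ n13 → P)
    (c32 : 2 ≤ n2 → 1 ≤ n5 → 1 ≤ n9 → 1 ≤ n12 → P)
    (c33 : 1 ≤ n3 → 2 ≤ n4 → 1 ≤ n9 → 1 ≤ n10 → P)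
    (c34 : 1 ≤ n7 → 1 ≤ n10 → 1 ≤ n13 → P)
    (c35 : 1 ≤ n4 → 1 ≤ n7 → 1 ≤ n9 → 1 ≤ n10 → P)
    (c36 : 1 ≤ n3 → 1 ≤ n4 → 1 ≤ n9 → 1 ≤ n14 → P)
    (c37 : 1 ≤ n3 → 1 ≤ n5 → 1 ≤ n9 → 2 ≤ n14 → P)
    (c38 : 1 ≤ n3 → 1 ≤ n6 → 1 ≤ n10 → 2 ≤ n13 → P)
    (c39 : 1 ≤ n5 → 1 ≤ n6 → 2 ≤ n11 → 1 ≤ n12 → P)
    (c40 : 2 ≤ n7 → 1 ≤ n9 → 1 ≤ n10 → 1 ≤ n12 → P)
    (c41 : 1 ≤ n7 → 1 ≤ n11 → 1 ≤ n13 → 1 ≤ n14 → P) : P := by
  rcases Nat.lt_or_ge n15 1 with h1 | h1
  · rcases Nat.lt_or_ge n4 1 with h2 | h2
    · rcases Nat.lt_or_ge n7 1 with h3 | h3
      · rcases Nat.lt_or_ge n5 1 with h4 | h4
        · rcases Nat.lt_or_ge n1 1 with h5 | h5
          · rcases Nat.lt_or_ge n6 1 with h6 | h6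
            · rcases Nat.lt_or_ge n3 1 with h7 | h7
              · rcases Nat.lt_or_ge n2 1 with h8 | h8
                · omega
                · rcases Nat.lt_or_ge n13 1 with h9 | h9
                  · omega
                  · exact c14 (by omega) (by omega)
              · rcases Nat.lt_or_ge n12 1 with h10 | h10
                · rcases Nat.lt_or_ge n13 1 with h11 | h11
                  · omega
                  · rcases Nat.lt_or_ge n2 1 with h12 | h12
                    · rcases Nat.lt_or_ge n14 1 with h13 | h13
                      · omega
                      · exact c23 (by omega) (by omega) (by omega)
                    · exact c14 (by omega) (by omega)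
                · exact c13 (by omega) (by omega)
            · rcases Nat.lt_or_ge n9 1 with h14 | h14
              · rcases Nat.lt_or_ge n3 1 with h15 | h15
                · rcases Nat.lt_or_ge n13 1 with h16 | h16
                  · omega
                  · rcases Nat.lt_or_ge n2 1 with h17 | h17
                    · rcases Nat.lt_or_ge n11 1 with h18 | h18
                      · omega
                      · exact c26 (by omega) (by omega) (by omega)
                    · exact c14 (by omega) (by omega)
                · rcases Nat.lt_or_ge n12 1 with h19 | h19
                  · rcases Nat.lt_or_ge n13 1 with h20 | h20
                    · omega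
                    · rcases Nat.lt_or_ge n2 1 with h21 | h21
                      · rcases Nat.lt_or_ge n14 1 with h22 | h22
                        · rcases Nat.lt_or_ge n11 1 with h23 | h23
                          · rcases Nat.lt_or_ge n8 1 with h24 | h24
                            · rcases Nat.lt_or_ge n10 1 with h25 | h25
                              · omega
                              · rcases Nat.lt_or_ge n13 2 with h26 | h26
                                · omega
                                · exact c38 (by omega) (by omega) (by omega) (by omega)
                            · exact c31 (by omega) (by omega) (by omega) (by omega)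
                          · exact c26 (by omega) (by omega) (by omega)
                        · exact c23 (by omega) (by omega) (by omega)
                      · exact c14 (by omega) (by omega)
                  · exact c13 (by omega) (by omega)
              · exact c6 (by omega) (by omega)
          · rcases Nat.lt_or_ge n14 1 with h27 | h27
            · rcases Nat.lt_or_ge n6 1 with h28 | h28
              · rcases Nat.lt_or_ge n12 1 with h29 | h29
                · omega
                · rcases Nat.lt_or_ge n3 1 with h30 | h30
                  · rcases Nat.lt_or_ge n2 1 with h31 | h31
                    · omega
                    · exact c12 (by omega) (by omega) (by omega)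
                  · exact c13 (by omega) (by omega)
              · rcases Nat.lt_or_ge n9 1 with h32 | h32
                · rcases Nat.lt_or_ge n8 1 with h33 | h33
                  · rcases Nat.lt_or_ge n12 1 with h34 | h34
                    · rcases Nat.lt_or_ge n13 1 with h35 | h35
                      · omega
                      · rcases Nat.lt_or_ge n2 1 with h36 | h36
                        · rcases Nat.lt_or_ge n11 1 with h37 | h37
                          · rcases Nat.lt_or_ge n10 1 with h38 | h38
                            · omega
                            · exact c18 (by omega) (by omega) (by omega) (by omega)
                          · exact c26 (by omega) (by omega) (by omega)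
                        · exact c14 (by omega) (by omega)
                    · rcases Nat.lt_or_ge n3 1 with h39 | h39
                      · rcases Nat.lt_or_ge n2 1 with h40 | h40
                        · rcases Nat.lt_or_ge n11 1 with h41 | h41
                          · rcases Nat.lt_or_ge n10 1 with h42 | h42
                            · omega
                            · rcases Nat.lt_or_ge n1 2 with h43 | h43
                              · omega
                              · exact c15 (by omega) (by omega) (by omega) (by omega)
                          · exact c16 (by omega) (by omega) (by omega) (by omega)
                        · exact c12 (by omega) (by omega) (by omega)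
                      · exact c13 (by omega) (by omega)
                  · exact c8 (by omega) (by omega) (by omega)
                · exact c6 (by omega) (by omega)
            · exact c5 (by omega) (by omega)
        · rcases Nat.lt_or_ge n10 1 with h44 | h44
          · rcases Nat.lt_or_ge n14 1 with h45 | h45
            · rcases Nat.lt_or_ge n6 1 with h46 | h46
              · rcases Nat.lt_or_ge n12 1 with h47 | h47
                · rcases Nat.lt_or_ge n2 1 with h48 | h48
                  · omega
                  · rcases Nat.lt_or_ge n13 1 with h49 | h49
                    · rcases Nat.lt_or_ge n8 1 with h50 | h50
                      · omega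
                      · exact c11 (by omega) (by omega) (by omega)
                    · exact c14 (by omega) (by omega)
                · rcases Nat.lt_or_ge n3 1 with h51 | h51
                  · rcases Nat.lt_or_ge n2 1 with h52 | h52
                    · omega
                    · rcases Nat.lt_or_ge n13 1 with h53 | h53
                      · rcases Nat.lt_or_ge n8 1 with h54 | h54
                        · rcases Nat.lt_or_ge n1 1 with h55 | h55
                          · rcases Nat.lt_or_ge n11 1 with h56 | h56
                            · rcases Nat.lt_or_ge n2 2 with h57 | h57
                              · omega
                              · rcases Nat.lt_or_ge n9 1 with h58 | h58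
                                · omega
                                · exact c32 (by omega) (by omega) (by omega) (by omega)
                            · exact c21 (by omega) (by omega) (by omega) (by omega)
                          · exact c12 (by omega) (by omega) (by omega)
                        · exact c11 (by omega) (by omega) (by omega)
                      · exact c14 (by omega) (by omega)
                  · exact c13 (by omega) (by omega)
              · rcases Nat.lt_or_ge n9 1 with h59 | h59
                · rcases Nat.lt_or_ge n12 1 with h60 | h60
                  · rcases Nat.lt_or_ge n13 1 with h61 | h61
                    · rcases Nat.lt_or_ge n8 1 with h62 | h62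
                      · omega
                      · rcases Nat.lt_or_ge n1 1 with h63 | h63
                        · rcases Nat.lt_or_ge n2 1 with h64 | h64
                          · rcases Nat.lt_or_ge n11 1 with h65 | h65
                            · rcases Nat.lt_or_ge n3 1 with h66 | h66
                              · omega
                              · rcases Nat.lt_or_ge n8 2 with h67 | h67
                                · omega
                                · exact c24 (by omega) (by omega) (by omega) (by omega)
                            · exact c27 (by omega) (by omega) (by omega) (by omega)
                          · exact c11 (by omega) (by omega) (by omega)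
                        · exact c8 (by omega) (by omega) (by omega)
                    · rcases Nat.lt_or_ge n2 1 with h68 | h68
                      · rcases Nat.lt_or_ge n11 1 with h69 | h69
                        · rcases Nat.lt_or_ge n8 1 with h70 | h70
                          · omega
                          · rcases Nat.lt_or_ge n1 1 with h71 | h71
                            · rcases Nat.lt_or_ge n3 1 with h72 | h72
                              · omega
                              · exact c31 (by omega) (by omega) (by omega) (by omega)
                            · exact c8 (by omega) (by omega) (by omega)
                        · exact c26 (by omega) (by omega) (by omega)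
                      · exact c14 (by omega) (by omega)
                  · rcases Nat.lt_or_ge n3 1 with h73 | h73
                    · rcases Nat.lt_or_ge n11 2 with h74 | h74
                      · rcases Nat.lt_or_ge n2 1 with h75 | h75
                        · omega
                        · rcases Nat.lt_or_ge n13 1 with h76 | h76
                          · rcases Nat.lt_or_ge n8 1 with h77 | h77
                            · omega
                            · exact c11 (by omega) (by omega) (by omega)
                          · exact c14 (by omega) (by omega)
                      · exact c39 (by omega) (by omega) (by omega) (by omega)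
                    · exact c13 (by omega) (by omega)
                · exact c6 (by omega) (by omega)
            · rcases Nat.lt_or_ge n1 1 with h78 | h78
              · rcases Nat.lt_or_ge n11 1 with h79 | h79
                · rcases Nat.lt_or_ge n9 1 with h80 | h80
                  · rcases Nat.lt_or_ge n3 1 with h81 | h81
                    · omega
                    · rcases Nat.lt_or_ge n12 1 with h82 | h82
                      · rcases Nat.lt_or_ge n13 1 with h83 | h83
                        · rcases Nat.lt_or_ge n8 1 with h84 | h84
                          · omega
                          · exact c28 (by omega) (by omega) (by omega) (by omega)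
                        · exact c23 (by omega) (by omega) (by omega)
                      · exact c13 (by omega) (by omega)
                  · rcases Nat.lt_or_ge n6 1 with h85 | h85
                    · rcases Nat.lt_or_ge n2 1 with h86 | h86
                      · rcases Nat.lt_or_ge n3 1 with h87 | h87
                        · omega
                        · rcases Nat.lt_or_ge n12 1 with h88 | h88
                          · rcases Nat.lt_or_ge n13 1 with h89 | h89
                            · rcases Nat.lt_or_ge n8 1 with h90 | h90
                              · rcases Nat.lt_or_ge n14 2 with h91 | h91
                                · omega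
                                · exact c37 (by omega) (by omega) (by omega) (by omega)
                              · exact c28 (by omega) (by omega) (by omega) (by omega)
                            · exact c23 (by omega) (by omega) (by omega)
                          · exact c13 (by omega) (by omega)
                      · exact c29 (by omega) (by omega) (by omega) (by omega)
                    · exact c6 (by omega) (by omega)
                · exact c20 (by omega) (by omega) (by omega)
              · exact c5 (by omega) (by omega)
          · exact c4 (by omega) (by omega)
      · rcases Nat.lt_or_ge n8 1 with h92 | h92
        · rcases Nat.lt_or_ge n5 1 with h93 | h93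
          · rcases Nat.lt_or_ge n1 1 with h94 | h94
            · rcases Nat.lt_or_ge n9 1 with h95 | h95
              · rcases Nat.lt_or_ge n3 1 with h96 | h96
                · rcases Nat.lt_or_ge n13 1 with h97 | h97
                  · rcases Nat.lt_or_ge n11 1 with h98 | h98
                    · omega
                    · rcases Nat.lt_or_ge n12 1 with h99 | h99
                      · omega
                      · exact c22 (by omega) (by omega) (by omega)
                  · rcases Nat.lt_or_ge n2 1 with h100 | h100
                    · rcases Nat.lt_or_ge n10 1 with h101 | h101
                      · rcases Nat.lt_or_ge n11 1 with h102 | h102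
                        · omega
                        · rcases Nat.lt_or_ge n12 1 with h103 | h103
                          · rcases Nat.lt_or_ge n6 1 with h104 | h104
                            · rcases Nat.lt_or_ge n14 1 with h105 | h105
                              · omega
                              · exact c41 (by omega) (by omega) (by omega) (by omega)
                            · exact c26 (by omega) (by omega) (by omega)
                          · exact c22 (by omega) (by omega) (by omega)
                      · exact c34 (by omega) (by omega) (by omega)
                    · exact c14 (by omega) (by omega)
                · rcases Nat.lt_or_ge n12 1 with h106 | h106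
                  · rcases Nat.lt_or_ge n13 1 with h107 | h107
                    · omega
                    · rcases Nat.lt_or_ge n2 1 with h108 | h108
                      · rcases Nat.lt_or_ge n14 1 with h109 | h109
                        · rcases Nat.lt_or_ge n10 1 with h110 | h110
                          · omega
                          · exact c34 (by omega) (by omega) (by omega)
                        · exact c23 (by omega) (by omega) (by omega)
                      · exact c14 (by omega) (by omega)
                  · exact c13 (by omega) (by omega)
              · rcases Nat.lt_or_ge n6 1 with h111 | h111
                · rcases Nat.lt_or_ge n14 1 with h112 | h112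
                  · rcases Nat.lt_or_ge n12 1 with h113 | h113
                    · omega
                    · rcases Nat.lt_or_ge n3 1 with h114 | h114
                      · rcases Nat.lt_or_ge n11 1 with h115 | h115
                        · rcases Nat.lt_or_ge n2 1 with h116 | h116
                          · rcases Nat.lt_or_ge n10 1 with h117 | h117
                            · omega
                            · rcases Nat.lt_or_ge n13 1 with h118 | h118
                              · rcases Nat.lt_or_ge n7 2 with h119 | h119
                                · omega
                                · exact c40 (by omega) (by omega) (by omega) (by omega)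
                              · exact c34 (by omega) (by omega) (by omega)
                          · exact c17 (by omega) (by omega) (by omega) (by omega)
                        · exact c22 (by omega) (by omega) (by omega)
                      · exact c13 (by omega) (by omega)
                  · exact c30 (by omega) (by omega) (by omega)
                · exact c6 (by omega) (by omega)
            · rcases Nat.lt_or_ge n14 1 with h120 | h120
              · rcases Nat.lt_or_ge n6 1 with h121 | h121
                · rcases Nat.lt_or_ge n12 1 with h122 | h122
                  · omega
                  · rcases Nat.lt_or_ge n3 1 with h123 | h123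
                    · rcases Nat.lt_or_ge n2 1 with h124 | h124
                      · rcases Nat.lt_or_ge n11 1 with h125 | h125
                        · rcases Nat.lt_or_ge n10 1 with h126 | h126
                          · omega
                          · exact c19 (by omega) (by omega) (by omega) (by omega)
                        · exact c22 (by omega) (by omega) (by omega)
                      · exact c12 (by omega) (by omega) (by omega)
                    · exact c13 (by omega) (by omega)
                · rcases Nat.lt_or_ge n9 1 with h127 | h127
                  · rcases Nat.lt_or_ge n12 1 with h128 | h128
                    · rcases Nat.lt_or_ge n13 1 with h129 | h129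
                      · omega
                      · rcases Nat.lt_or_ge n2 1 with h130 | h130
                        · rcases Nat.lt_or_ge n11 1 with h131 | h131
                          · rcases Nat.lt_or_ge n10 1 with h132 | h132
                            · omega
                            · exact c18 (by omega) (by omega) (by omega) (by omega)
                          · exact c26 (by omega) (by omega) (by omega)
                        · exact c14 (by omega) (by omega)
                    · rcases Nat.lt_or_ge n3 1 with h133 | h133
                      · rcases Nat.lt_or_ge n2 1 with h134 | h134
                        · rcases Nat.lt_or_ge n11 1 with h135 | h135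
                          · rcases Nat.lt_or_ge n10 1 with h136 | h136
                            · omega
                            · exact c19 (by omega) (by omega) (by omega) (by omega)
                          · exact c16 (by omega) (by omega) (by omega) (by omega)
                        · exact c12 (by omega) (by omega) (by omega)
                      · exact c13 (by omega) (by omega)
                  · exact c6 (by omega) (by omega)
              · exact c5 (by omega) (by omega)
          · rcases Nat.lt_or_ge n10 1 with h137 | h137
            · rcases Nat.lt_or_ge n14 1 with h138 | h138
              · rcases Nat.lt_or_ge n6 1 with h139 | h139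
                · rcases Nat.lt_or_ge n12 1 with h140 | h140
                  · omega
                  · rcases Nat.lt_or_ge n3 1 with h141 | h141
                    · rcases Nat.lt_or_ge n11 1 with h142 | h142
                      · rcases Nat.lt_or_ge n2 1 with h143 | h143
                        · omega
                        · rcases Nat.lt_or_ge n13 1 with h144 | h144
                          · rcases Nat.lt_or_ge n1 1 with h145 | h145
                            · rcases Nat.lt_or_ge n9 1 with h146 | h146
                              · omega
                              · exact c17 (by omega) (by omega) (by omega) (by omega)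
                            · exact c12 (by omega) (by omega) (by omega)
                          · exact c14 (by omega) (by omega)
                      · exact c22 (by omega) (by omega) (by omega)
                    · exact c13 (by omega) (by omega)
                · rcases Nat.lt_or_ge n9 1 with h147 | h147
                  · rcases Nat.lt_or_ge n12 1 with h148 | h148
                    · omega
                    · rcases Nat.lt_or_ge n3 1 with h149 | h149
                      · rcases Nat.lt_or_ge n11 1 with h150 | h150
                        · omega
                        · exact c22 (by omega) (by omega) (by omega)
                      · exact c13 (by omega) (by omega)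
                  · exact c6 (by omega) (by omega)
              · rcases Nat.lt_or_ge n1 1 with h151 | h151
                · rcases Nat.lt_or_ge n11 1 with h152 | h152
                  · rcases Nat.lt_or_ge n9 1 with h153 | h153
                    · omega
                    · exact c30 (by omega) (by omega) (by omega)
                  · exact c20 (by omega) (by omega) (by omega)
                · exact c5 (by omega) (by omega)
            · exact c4 (by omega) (by omega)
        · exact c2 (by omega) (by omega)
    · rcases Nat.lt_or_ge n11 1 with h154 | h154
      · rcases Nat.lt_or_ge n8 1 with h155 | h155
        · rcases Nat.lt_or_ge n10 1 with h156 | h156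
          · rcases Nat.lt_or_ge n14 1 with h157 | h157
            · rcases Nat.lt_or_ge n9 1 with h158 | h158
              · omega
              · rcases Nat.lt_or_ge n6 1 with h159 | h159
                · rcases Nat.lt_or_ge n2 1 with h160 | h160
                  · omega
                  · exact c10 (by omega) (by omega) (by omega)
                · exact c6 (by omega) (by omega)
            · rcases Nat.lt_or_ge n1 1 with h161 | h161
              · rcases Nat.lt_or_ge n9 1 with h162 | h162
                · omega
                · rcases Nat.lt_or_ge n6 1 with h163 | h163
                  · rcases Nat.lt_or_ge n2 1 with h164 | h164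
                    · rcases Nat.lt_or_ge n7 1 with h165 | h165
                      · rcases Nat.lt_or_ge n3 1 with h166 | h166
                        · omega
                        · exact c36 (by omega) (by omega) (by omega) (by omega)
                      · exact c30 (by omega) (by omega) (by omega)
                    · exact c10 (by omega) (by omega) (by omega)
                  · exact c6 (by omega) (by omega)
              · exact c5 (by omega) (by omega)
          · rcases Nat.lt_or_ge n5 1 with h167 | h167
            · rcases Nat.lt_or_ge n1 1 with h168 | h168
              · rcases Nat.lt_or_ge n9 1 with h169 | h169
                · rcases Nat.lt_or_ge n3 1 with h170 | h170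
                  · omega
                  · rcases Nat.lt_or_ge n12 1 with h171 | h171
                    · rcases Nat.lt_or_ge n13 1 with h172 | h172
                      · omega
                      · exact c25 (by omega) (by omega) (by omega) (by omega)
                    · exact c13 (by omega) (by omega)
                · rcases Nat.lt_or_ge n6 1 with h173 | h173
                  · rcases Nat.lt_or_ge n2 1 with h174 | h174
                    · rcases Nat.lt_or_ge n7 1 with h175 | h175
                      · rcases Nat.lt_or_ge n3 1 with h176 | h176
                        · omega
                        · rcases Nat.lt_or_ge n12 1 with h177 | h177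
                          · rcases Nat.lt_or_ge n13 1 with h178 | h178
                            · rcases Nat.lt_or_ge n4 2 with h179 | h179
                              · omega
                              · exact c33 (by omega) (by omega) (by omega) (by omega)
                            · exact c25 (by omega) (by omega) (by omega) (by omega)
                          · exact c13 (by omega) (by omega)
                      · exact c35 (by omega) (by omega) (by omega) (by omega)
                    · exact c10 (by omega) (by omega) (by omega)
                  · exact c6 (by omega) (by omega)
              · exact c9 (by omega) (by omega) (by omega)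
            · exact c4 (by omega) (by omega)
        · rcases Nat.lt_or_ge n7 1 with h180 | h180
          · rcases Nat.lt_or_ge n3 1 with h181 | h181
            · rcases Nat.lt_or_ge n5 1 with h182 | h182
              · rcases Nat.lt_or_ge n1 1 with h183 | h183
                · omega
                · rcases Nat.lt_or_ge n14 1 with h184 | h184
                  · rcases Nat.lt_or_ge n6 1 with h185 | h185
                    · rcases Nat.lt_or_ge n10 1 with h186 | h186
                      · rcases Nat.lt_or_ge n2 1 with h187 | h187
                        · omega
                        · exact c7 (by omega) (by omega) (by omega) (by omega)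
                      · exact c9 (by omega) (by omega) (by omega)
                    · exact c8 (by omega) (by omega) (by omega)
                  · exact c5 (by omega) (by omega)
              · rcases Nat.lt_or_ge n10 1 with h188 | h188
                · rcases Nat.lt_or_ge n2 1 with h189 | h189
                  · omega
                  · exact c11 (by omega) (by omega) (by omega)
                · exact c4 (by omega) (by omega)
            · exact c3 (by omega) (by omega) (by omega)
          · exact c2 (by omega) (by omega)
      · exact c1 (by omega) (by omega)
  · exact c0 (by omega)

end Pool.Agent.J4.H16.FL
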