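import Mathlib
import Pool.Agent.N347.TC.Ori

set_option autoImplicit false

/-!
The union of two matchings is bipartite, and its edges can be coloured from lists of two colours.
-/

namespace Pool.Agent.J4.H16.FL

open Finset

section invol

variable {W : Type} (σ τ : Equiv.Perm W)

theorem conj_zpow (hσ : σ * σ = 1) (hτ : τ * τ = 1) (k : ℤ) (x : W) :
    σ (((σ * τ) ^ k) x) = ((σ * τ) ^ (-k)) (σ x) := by
  have h1 : σ * (σ * τ) * σ⁻¹ = (σ * τ)⁻¹ := by
    have hσ' : σ⁻¹ = σ := inv_eq_of_mul_eq_one_right hσ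
    have hτ' : τ⁻¹ = τ := inv_eq_of_mul_eq_one_right hτ
    rw [mul_inv_rev, hσ', hτ', ← mul_assoc, hσ, one_mul]
  have h2 : σ * (σ * τ) ^ k * σ⁻¹ = (σ * τ) ^ (-k) := by
    rw [zpow_neg, ← inv_zpow, ← h1]
    exact (_root_.conj_zpow (i := k)).symm
  have h3 : σ * (σ * τ) ^ k = (σ * τ) ^ (-k) * σ := by
    rw [← h2, inv_mul_cancel_right]
  have h4 := congrArg (fun f : Equiv.Perm W => f x) h3
  simpa only [Equiv.Perm.mul_apply] using h4

theorem not_same (hσ : σ * σ = 1) (hτ : τ * τ = 1) (fσ : ∀ x, σ x ≠ x) (fτ : ∀ x, τ x ≠ x) (x : W) :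
    ¬ (σ * τ).SameCycle x (σ x) := by
  rintro ⟨k, hk⟩
  rcases Int.even_or_odd' k with ⟨j, rfl | rfl⟩
  · refine fσ (((σ * τ) ^ j) x) ?_
    rw [conj_zpow σ τ hσ hτ, ← hk, ← Equiv.Perm.mul_apply, ← zpow_add]
    congr 2
    ring
  · refine fτ (((σ * τ) ^ j) x) ?_
    have h1 : σ (((σ * τ) ^ j) x) = (σ * τ) (((σ * τ) ^ j) x) := by
      rw [conj_zpow σ τ hσ hτ, ← hk, ← Equiv.Perm.mul_apply, ← zpow_add, ← Equiv.Perm.mul_apply, ← zpow_one_add]
      congr 2
      ring
    rw [Equiv.Perm.mul_apply] at h1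
    exact (σ.injective h1).symm

/-- Two involutions without fixed points have a common two-colouring. -/
theorem exists_side (hσ : σ * σ = 1) (hτ : τ * τ = 1) (fσ : ∀ x, σ x ≠ x) (fτ : ∀ x, τ x ≠ x) :
    ∃ side : W → Prop, ∀ x, (side (σ x) ↔ ¬ side x) ∧ (side (τ x) ↔ ¬ side x) := by
  classical
  set ρ := σ * τ with hρ
  let Q := Quotient (Equiv.Perm.SameCycle.setoid ρ)
  let q : W → Q := fun x => Quotient.mk _ x
  have hq : ∀ x y, q x = q y ↔ ρ.SameCycle x y := fun x y => Quotient.eq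
  have hqσ : ∀ x y, q x = q y → q (σ x) = q (σ y) := by
    intro x y h
    rw [hq] at h ⊢
    obtain ⟨k, hk⟩ := h
    refine ⟨-k, ?_⟩
    rw [← hk, conj_zpow σ τ hσ hτ]
  have hσσ : ∀ x, σ (σ x) = x := fun x => by rw [← Equiv.Perm.mul_apply, hσ]; rfl
  have hne : ∀ x, q x ≠ q (σ x) := fun x h => not_same σ τ hσ hτ fσ fτ x ((hq _ _).1 h)
  let r : Q → Q → Prop := WellOrderingRel
  have tri : ∀ a b : Q, a ≠ b → (r a b ↔ ¬ r b a) := by
    intro a b hab
    constructor
    · intro h h'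
      exact asymm h h'
    · intro h
      rcases trichotomous_of r a b with h' | h' | h'
      · exact h'
      · exact absurd h' hab
      · exact absurd h' h
  refine ⟨fun x => r (q x) (q (σ x)), fun x => ⟨?_, ?_⟩⟩
  · show r (q (σ x)) (q (σ (σ x))) ↔ ¬ r (q x) (q (σ x))
    rw [hσσ, tri _ _ (hne x).symm]
  · show r (q (τ x)) (q (σ (τ x))) ↔ ¬ r (q x) (q (σ x))
    have h1 : q (τ x) = q (σ x) := by
      have h2 : τ x = σ (ρ x) := by
        rw [hρ, Equiv.Perm.mul_apply, hσσ]
      rw [h2]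
      exact hqσ _ _ ((hq _ _).2 (Equiv.Perm.SameCycle.symm ⟨1, by rw [zpow_one]⟩))
    have h3 : q (σ (τ x)) = q x := (hq _ _).2 (Equiv.Perm.SameCycle.symm ⟨1, by rw [zpow_one, hρ, Equiv.Perm.mul_apply]⟩)
    rw [h1, h3, tri _ _ (hne x).symm]

end invol

open Classical in
/-- The other end of the edge of colour `k` at `v`. -/
noncomputable def mate {V : Type} (E : V → V → ℕ → Prop) (k : ℕ) (v : V × Bool) : V × Bool :=
  if h : ∃ w, E v.1 w k then (h.choose, v.2) else (v.1, !v.2)

theorem mate_mate {V : Type} {E : V → V → ℕ → Prop} (hs : ∀ u v k, E u v k → E v u k)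
    (hu : ∀ u v w k, E u v k → E u w k → v = w) (k : ℕ) (v : V × Bool) : mate E k (mate E k v) = v := by
  classical
  by_cases h : ∃ w, E v.1 w k
  · have h1 : mate E k v = (h.choose, v.2) := dif_pos h
    have h2 : E h.choose v.1 k := hs _ _ _ h.choose_spec
    have h3 : ∃ w, E (mate E k v).1 w k := ⟨v.1, by rw [h1]; exact h2⟩
    have h4 : mate E k (mate E k v) = (h3.choose, (mate E k v).2) := dif_pos h3
    have h5 : h3.choose = v.1 := by
      have := h3.choose_spec
      refine hu (mate E k v).1 _ _ k this ?_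
      rw [h1]
      exact h2
    rw [h4, h5, h1]
  · have h1 : mate E k v = (v.1, !v.2) := dif_neg h
    have h3 : ¬ ∃ w, E (mate E k v).1 w k := by rw [h1]; exact h
    have h4 : mate E k (mate E k v) = ((mate E k v).1, !(mate E k v).2) := dif_neg h3
    rw [h4, h1]
    simp

theorem mate_ne {V : Type} {E : V → V → ℕ → Prop} (hi : ∀ u v k, E u v k → u ≠ v) (k : ℕ) (v : V × Bool) :
    mate E k v ≠ v := by
  classical
  by_cases h : ∃ w, E v.1 w k
  · have h1 : mate E k v = (h.choose, v.2) := dif_pos h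
    rw [h1]
    intro h2
    have h3 := congrArg Prod.fst h2
    exact hi _ _ _ h.choose_spec h3.symm
  · have h1 : mate E k v = (v.1, !v.2) := dif_neg h
    rw [h1]
    intro h2
    have h3 := congrArg Prod.snd h2
    simp at h3

noncomputable def matePerm {V : Type} {E : V → V → ℕ → Prop} (hs : ∀ u v k, E u v k → E v u k)
    (hu : ∀ u v w k, E u v k → E u w k → v = w) (k : ℕ) : Equiv.Perm (V × Bool) :=
  ⟨mate E k, mate E k, mate_mate hs hu k, mate_mate hs hu k⟩

theorem exists_side_edges {V : Type} (E : V → V → ℕ → Prop) (hs : ∀ u v k, E u v k → E v u k)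
    (hu : ∀ u v w k, E u v k → E u w k → v = w) (hi : ∀ u v k, E u v k → u ≠ v) :
    ∃ side : V → Prop, ∀ u v k, E u v k → k < 2 → (side v ↔ ¬ side u) := by
  classical
  have sq : ∀ k, matePerm hs hu k * matePerm hs hu k = 1 := by
    intro k
    ext1 x
    exact mate_mate hs hu k x
  obtain ⟨side, h⟩ := exists_side (matePerm hs hu 0) (matePerm hs hu 1) (sq 0) (sq 1)
    (fun x => mate_ne hi 0 x) (fun x => mate_ne hi 1 x)
  refine ⟨fun v => side (v, false), fun u v k hE hk => ?_⟩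
  have key : mate E k (u, false) = (v, false) := by
    have hex : ∃ w, E (u, false).1 w k := ⟨v, hE⟩
    have h1 : mate E k (u, false) = (hex.choose, false) := dif_pos hex
    rw [h1, hu u _ _ k hex.choose_spec hE]
  have hk2 : k = 0 ∨ k = 1 := by omega
  show side (v, false) ↔ ¬ side (u, false)
  rcases hk2 with rfl | rfl
  · have := (h (u, false)).1
    rw [← key]
    exact this
  · have := (h (u, false)).2
    rw [← key]
    exact this

end Pool.Agent.J4.H16.FL
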