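import Pool.Agent.J4.H16.FL.Bip

set_option autoImplicit false

/-!
List edge colourings from few different lists: splitting the palette.
-/

namespace Pool.Agent.J4.H16.FL

open Finset

/-- There is a proper edge colouring of `G` from the lists `L`. -/
def ListColourable {V : Type} (G : SimpleGraph V) (L : G.edgeSet → Finset ℕ) : Prop :=
  ∃ f : G.edgeSet → ℕ, (∀ e, f e ∈ L e) ∧ ∀ e e', G.lineGraph.Adj e e' → f e ≠ f e'

/-- Every finite graph with a proper edge colouring with `D` colours has a proper edge colouring from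
lists each of which is one of the lists `X 0, …, X (K - 1)`. -/
def Solvable {K : ℕ} (D : ℕ) (X : Fin K → Finset ℕ) : Prop :=
  ∀ (V : Type) [Finite V] (G : SimpleGraph V), G.lineGraph.Colorable D →
    ∀ t : G.edgeSet → Fin K, ListColourable G fun e => X (t e)

/-- The conjecture for `D` colours and at most `K` different lists. -/
def FewLists (K D : ℕ) : Prop :=
  ∀ (V : Type) [Finite V] (G : SimpleGraph V), G.lineGraph.Colorable D →
    ∀ L : G.edgeSet → Finset ℕ, (∀ e, D ≤ (L e).card) → (Set.range L).ncard ≤ K → ListColourable G L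

theorem Solvable.restrict {K d : ℕ} {Y : Fin K → Finset ℕ} (H : Solvable d Y) {V : Type} [Finite V]
    (G : SimpleGraph V) (p : G.edgeSet → Prop) (c : G.edgeSet → ℕ) (hc : ∀ e, p e → c e < d)
    (hcc : ∀ e e', p e → p e' → G.lineGraph.Adj e e' → c e ≠ c e') (t : G.edgeSet → Fin K) :
    ∃ f : G.edgeSet → ℕ, (∀ e, p e → f e ∈ Y (t e)) ∧
      ∀ e e', p e → p e' → G.lineGraph.Adj e e' → f e ≠ f e' := by
  classical
  set s : Set (Sym2 V) := {e | ∃ h : e ∈ G.edgeSet, p ⟨e, h⟩} with hs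
  have hsG : s ⊆ G.edgeSet := fun e he => he.1
  set G' : SimpleGraph V := SimpleGraph.fromEdgeSet s with hG'
  have hes : G'.edgeSet = s := by
    rw [hG', SimpleGraph.edgeSet_fromEdgeSet]
    ext e
    constructor
    · exact fun h => h.1
    · exact fun h => ⟨h, fun h' => G.not_isDiag_of_mem_edgeSet (hsG h) h'⟩
  have hmem : ∀ e : G'.edgeSet, ∃ h : (e : Sym2 V) ∈ G.edgeSet, p ⟨e, h⟩ := fun e => by
    have h0 : (e : Sym2 V) ∈ s := hes ▸ e.2
    exact h0
  let ι : G'.edgeSet → G.edgeSet := fun e => ⟨e, (hmem e).1⟩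
  have hι : ∀ e, p (ι e) := fun e => (hmem e).2
  have hadj : ∀ e e', G'.lineGraph.Adj e e' → G.lineGraph.Adj (ι e) (ι e') := by
    intro e e' h
    rw [SimpleGraph.lineGraph_adj_iff_exists] at h ⊢
    refine ⟨fun h' => h.1 (Subtype.ext ?_), h.2⟩
    have h3 : ((ι e : G.edgeSet) : Sym2 V) = (ι e' : G.edgeSet) := congrArg Subtype.val h'
    exact h3
  have hcol : G'.lineGraph.Colorable d := by
    refine ⟨SimpleGraph.Coloring.mk (fun e => (⟨c (ι e), hc _ (hι e)⟩ : Fin d)) ?_⟩
    intro e e' h h'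
    exact hcc _ _ (hι e) (hι e') (hadj e e' h) (congrArg Fin.val h')
  obtain ⟨f, hf1, hf2⟩ := H V G' hcol fun e => t (ι e)
  have hin : ∀ e : G.edgeSet, p e → (e : Sym2 V) ∈ G'.edgeSet := fun e he => by
    rw [hes]
    exact ⟨e.2, he⟩
  refine ⟨fun e => if h : p e then f ⟨e, hin e h⟩ else 0, ?_, ?_⟩
  · intro e he
    simp only [he, dif_pos]
    exact hf1 ⟨e, hin e he⟩
  · intro e e' he he' h
    simp only [he, he', dif_pos]
    refine hf2 _ _ ?_
    rw [SimpleGraph.lineGraph_adj_iff_exists] at h ⊢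
    refine ⟨fun h' => h.1 (Subtype.ext ?_), h.2⟩
    have h3 : ((⟨(e : Sym2 V), hin e he⟩ : G'.edgeSet) : Sym2 V) = (⟨(e' : Sym2 V), hin e' he'⟩ : G'.edgeSet) :=
      congrArg Subtype.val h'
    exact h3

theorem Solvable.split {K d d' : ℕ} {X : Fin K → Finset ℕ} (P : Finset ℕ)
    (h1 : Solvable d fun i => X i ∩ P) (h2 : Solvable d' fun i => X i \ P) : Solvable (d + d') X := by
  classical
  intro V _ G hG t
  obtain ⟨C⟩ := hG
  obtain ⟨f1, a1, b1⟩ := h1.restrict G (fun e => ((C e : Fin (d + d')) : ℕ) < d) (fun e => (C e : ℕ))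
    (fun e h => h) (fun e e' _ _ h h' => C.valid h (Fin.ext h')) t
  obtain ⟨f2, a2, b2⟩ := h2.restrict G (fun e => ¬ ((C e : Fin (d + d')) : ℕ) < d) (fun e => (C e : ℕ) - d)
    (fun e h => by have := (C e).2; omega)
    (fun e e' h1 h2 h h' => C.valid h (Fin.ext (by omega))) t
  refine ⟨fun e => if ((C e : Fin (d + d')) : ℕ) < d then f1 e else f2 e, ?_, ?_⟩
  · intro e
    by_cases h : ((C e : Fin (d + d')) : ℕ) < d
    · simp only [h, if_true]
      exact (mem_inter.1 (a1 e h)).1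
    · simp only [h, if_false]
      exact (mem_sdiff.1 (a2 e h)).1
  · intro e e' h
    by_cases he : ((C e : Fin (d + d')) : ℕ) < d <;> by_cases he' : ((C e' : Fin (d + d')) : ℕ) < d
    · simp only [he, he', if_true]
      exact b1 e e' he he' h
    · simp only [he, he', if_true, if_false]
      intro h'
      have h3 := (mem_inter.1 (a1 e he)).2
      have h4 := (mem_sdiff.1 (a2 e' he')).2
      rw [h'] at h3
      exact h4 h3
    · simp only [he, he', if_true, if_false]
      intro h'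
      have h3 := (mem_inter.1 (a1 e' he')).2
      have h4 := (mem_sdiff.1 (a2 e he)).2
      rw [← h'] at h3
      exact h4 h3
    · simp only [he, he', if_false]
      exact b2 e e' he he' h

theorem solvable_zero {K : ℕ} (X : Fin K → Finset ℕ) : Solvable 0 X := by
  intro V _ G hG t
  obtain ⟨C⟩ := hG
  exact ⟨fun _ => 0, fun e => (C e).elim0, fun e => (C e).elim0⟩

theorem solvable_one {K : ℕ} {X : Fin K → Finset ℕ} (hX : ∀ i, (X i).Nonempty) : Solvable 1 X := by
  intro V _ G hG t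
  obtain ⟨C⟩ := hG
  exact ⟨fun e => (hX (t e)).choose, fun e => (hX (t e)).choose_spec,
    fun e e' h => absurd (Subsingleton.elim _ _) (C.valid h)⟩

theorem solvable_two {K : ℕ} {X : Fin K → Finset ℕ} (hX : ∀ i, 2 ≤ (X i).card) : Solvable 2 X := by
  classical
  intro V _ G hG t
  obtain ⟨C⟩ := hG
  have : Fintype G.edgeSet := Fintype.ofFinite _
  let E : V → V → ℕ → Prop := fun u v k => ∃ h : G.Adj u v, ((C ⟨s(u, v), h⟩ : Fin 2) : ℕ) = k
  have hs : ∀ u v k, E u v k → E v u k := by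
    rintro u v k ⟨h, hk⟩
    refine ⟨h.symm, ?_⟩
    rw [← hk]
    congr 2
    exact Subtype.ext Sym2.eq_swap
  have hu : ∀ u v w k, E u v k → E u w k → v = w := by
    rintro u v w k ⟨h, hk⟩ ⟨h', hk'⟩
    by_contra hne
    refine C.valid (v := ⟨s(u, v), h⟩) (w := ⟨s(u, w), h'⟩) ?_ (Fin.ext (hk.trans hk'.symm))
    rw [SimpleGraph.lineGraph_adj_iff_exists]
    refine ⟨fun h3 => hne ?_, u, Sym2.mem_mk_left _ _, Sym2.mem_mk_left _ _⟩
    have h4 := congrArg Subtype.val h3
    exact Sym2.congr_right.1 h4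
  obtain ⟨side, hside⟩ := exists_side_edges E hs hu fun u v k h => h.1.ne
  have hends : ∀ e : G.edgeSet, ∃ a b, (e : Sym2 V) = s(a, b) ∧ side a ∧ ¬ side b := by
    rintro ⟨e, he⟩
    induction e using Sym2.ind with
    | _ u v =>
      have hadj : G.Adj u v := he
      have h1 := hside u v _ ⟨hadj, rfl⟩ (C ⟨s(u, v), hadj⟩).2
      by_cases hu' : side u
      · exact ⟨u, v, rfl, hu', fun h2 => (h1.1 h2) hu'⟩
      · exact ⟨v, u, Sym2.eq_swap, h1.2 hu', hu'⟩
  choose a b hab ha hb using hends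
  have key : ∀ (z : G.edgeSet → V), (∀ e : G.edgeSet, z e ∈ (e : Sym2 V)) → ∀ x,
      (univ.filter fun e => z e = x).card ≤ 2 := by
    intro z hz x
    have : (univ.filter fun e => z e = x).card ≤ (univ : Finset (Fin 2)).card := by
      refine card_le_card_of_injOn (fun e => C e) (fun _ _ => mem_coe.2 (mem_univ _)) ?_
      intro e he e' he' h
      have he2 := (mem_filter.1 (mem_coe.1 he)).2
      have he2' := (mem_filter.1 (mem_coe.1 he')).2
      by_contra hne
      refine C.valid (v := e) (w := e') ?_ h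
      rw [SimpleGraph.lineGraph_adj_iff_exists]
      refine ⟨hne, x, ?_, ?_⟩
      · rw [← he2]; exact hz e
      · rw [← he2']; exact hz e'
    simpa using this
  obtain ⟨φ, hφ⟩ := Pool.Agent.N347.TC.galvin_multi a b 2
    (key a fun e => by rw [hab e]; exact Sym2.mem_mk_left _ _)
    (key b fun e => by rw [hab e]; exact Sym2.mem_mk_right _ _) (fun e => X (t e)) fun e => hX _
  refine ⟨φ, fun e => (hφ e).1, fun e e' h h' => ?_⟩
  rw [SimpleGraph.lineGraph_adj_iff_exists] at h
  obtain ⟨hne, x, hx, hx'⟩ := h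
  have h3 := (hφ e).2 e' hne.symm h'.symm
  rw [hab e, Sym2.mem_iff] at hx
  rw [hab e', Sym2.mem_iff] at hx'
  rcases hx with rfl | rfl <;> rcases hx' with h4 | h4
  · exact h3.1 h4.symm
  · exact hb e' (h4 ▸ ha e)
  · exact hb e (h4 ▸ ha e')
  · exact h3.2 h4.symm

theorem Solvable.map {K K' D : ℕ} {X : Fin K → Finset ℕ} {Y : Fin K' → Finset ℕ} (H : Solvable D X)
    (σ : Fin K' → Fin K) (g : ℕ → ℕ) (hg : ∀ i j, ∀ a ∈ X i, ∀ b ∈ X j, g a = g b → a = b)
    (h : ∀ i, ∀ a ∈ X (σ i), g a ∈ Y i) : Solvable D Y := by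
  intro V _ G hG t
  obtain ⟨f, hf1, hf2⟩ := H V G hG fun e => σ (t e)
  exact ⟨fun e => g (f e), fun e => h _ _ (hf1 e),
    fun e e' hadj he => hf2 e e' hadj (hg _ _ _ (hf1 e) _ (hf1 e') he)⟩

theorem reduce {K : ℕ} (h : ∀ (D : ℕ) (X : Fin K → Finset ℕ), 1 ≤ D → (∀ i, (X i).card = D) →
      ∃ (d : ℕ) (P : Finset ℕ), 1 ≤ d ∧ d ≤ D ∧ (∀ i, (X i ∩ P).card = d) ∧ Solvable d fun i => X i ∩ P) :
    ∀ (D : ℕ) (X : Fin K → Finset ℕ), (∀ i, (X i).card = D) → Solvable D X := by
  intro D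
  induction D using Nat.strong_induction_on with
  | _ D ih =>
    intro X hX
    rcases Nat.eq_zero_or_pos D with rfl | hD
    · exact solvable_zero X
    · obtain ⟨d, P, h1, h2, h3, h4⟩ := h D X hD hX
      have h5 : ∀ i, (X i \ P).card = D - d := by
        intro i
        have := card_inter_add_card_sdiff (X i) P
        rw [h3 i, hX i] at this
        omega
      have h6 := h4.split P (ih (D - d) (by omega) _ h5)
      rwa [Nat.add_sub_cancel' h2] at h6

theorem fewLists_of {K D : ℕ} (h : ∀ X : Fin K → Finset ℕ, (∀ i, (X i).card = D) → Solvable D X) :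
    FewLists K D := by
  classical
  intro V _ G hG L hL hK
  have hfin : (Set.range L).Finite := Set.finite_range L
  have : Fintype (Set.range L) := hfin.fintype
  rw [Set.ncard_eq_toFinset_card' , Set.toFinset_card] at hK
  obtain ⟨ι⟩ : Nonempty (Set.range L ↪ Fin K) := by
    refine Function.Embedding.nonempty_of_card_le ?_
    rw [Fintype.card_fin]
    exact hK
  let t : G.edgeSet → Fin K := fun e => ι ⟨L e, ⟨e, rfl⟩⟩
  have hX : ∀ j : Fin K, ∃ x : Finset ℕ, x.card = D ∧ ∀ s : Set.range L, ι s = j → x ⊆ s.1 := by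
    intro j
    by_cases hj : ∃ s : Set.range L, ι s = j
    · obtain ⟨⟨s, ⟨e, rfl⟩⟩, hs⟩ := hj
      obtain ⟨x, hx1, hx2⟩ := exists_subset_card_eq (hL e)
      refine ⟨x, hx2, fun s' hs' => ?_⟩
      have := ι.injective (hs'.trans hs.symm)
      rw [this]
      exact hx1
    · push Not at hj
      exact ⟨range D, card_range D, fun s hs => absurd hs (hj s)⟩
  choose X hX1 hX2 using hX
  obtain ⟨f, hf1, hf2⟩ := h X hX1 V G hG t
  exact ⟨f, fun e => hX2 (t e) ⟨L e, ⟨e, rfl⟩⟩ rfl (hf1 e), hf2⟩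

theorem solvable_of {K D : ℕ} (h : FewLists K D) (X : Fin K → Finset ℕ) (hX : ∀ i, (X i).card = D) :
    Solvable D X := by
  classical
  intro V _ G hG t
  refine h V G hG _ (fun e => (hX _).ge) ?_
  have h1 : Set.range (fun e => X (t e)) ⊆ Set.range X := by
    rintro _ ⟨e, rfl⟩
    exact ⟨t e, rfl⟩
  refine (Set.ncard_le_ncard h1 (Set.finite_range X)).trans ?_
  rw [← Set.image_univ]
  refine (Set.ncard_image_le Set.finite_univ).trans ?_
  rw [Set.ncard_univ, Nat.card_eq_fintype_card, Fintype.card_fin]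

end Pool.Agent.J4.H16.FL
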