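import Pool.Agent.J4.H16.FL.Core

set_option autoImplicit false

/-!
The colours of a palette are classified by the set of the lists they belong to; by Dickson's lemma finitely
many palettes are enough.
-/

namespace Pool.Agent.J4.H16.FL

open Finset

variable {K : ℕ}

/-- The set of the lists which contain the colour `c`. -/
def pt (X : Fin K → Finset ℕ) (c : ℕ) : Finset (Fin K) := univ.filter fun i => c ∈ X i

/-- The colours which lie exactly in the lists in `s`. -/
def cls (X : Fin K → Finset ℕ) (s : Finset (Fin K)) : Finset ℕ :=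
  (univ.biUnion X).filter fun c => pt X c = s

theorem mem_pt {X : Fin K → Finset ℕ} {c : ℕ} {i : Fin K} : i ∈ pt X c ↔ c ∈ X i := by
  simp [pt]

theorem mem_cls {X : Fin K → Finset ℕ} {s : Finset (Fin K)} {c : ℕ} :
    c ∈ cls X s ↔ (∃ i, c ∈ X i) ∧ pt X c = s := by
  simp [cls]

theorem card_eq_sum (X : Fin K → Finset ℕ) (i : Fin K) :
    (X i).card = ∑ s ∈ univ.filter (fun s : Finset (Fin K) => i ∈ s), (cls X s).card := by
  rw [card_eq_sum_card_fiberwise (f := pt X) (t := univ.filter (fun s : Finset (Fin K) => i ∈ s))]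
  · refine sum_congr rfl fun s hs => ?_
    congr 1
    ext c
    rw [mem_filter, mem_cls]
    constructor
    · exact fun h => ⟨⟨i, h.1⟩, h.2⟩
    · intro h
      refine ⟨?_, h.2⟩
      rw [← mem_pt, h.2]
      exact (mem_filter.1 hs).2
  · intro c hc
    exact mem_coe.2 (mem_filter.2 ⟨mem_univ _, mem_pt.2 hc⟩)

/-- A palette `Y` which has at most as many colours of each kind as `X` is (up to renaming) the
restriction of `X` to a set `P` of colours. -/
theorem embed {X Y : Fin K → Finset ℕ} (h : ∀ s, (cls Y s).card ≤ (cls X s).card) :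
    ∃ P : Finset ℕ, (∀ i, (X i ∩ P).card = (Y i).card) ∧
      ∀ d, Solvable d Y → Solvable d fun i => X i ∩ P := by
  classical
  have hG : ∀ s, ∃ g : ℕ → ℕ, (∀ c ∈ cls Y s, g c ∈ cls X s) ∧
      ∀ c ∈ cls Y s, ∀ c' ∈ cls Y s, g c = g c' → c = c' := by
    intro s
    obtain ⟨ι⟩ : Nonempty (cls Y s ↪ cls X s) := by
      refine Function.Embedding.nonempty_of_card_le ?_
      rw [Fintype.card_coe, Fintype.card_coe]
      exact h s
    refine ⟨fun c => if hc : c ∈ cls Y s then (ι ⟨c, hc⟩ : ℕ) else 0, ?_, ?_⟩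
    · intro c hc
      simp only [hc, dif_pos]
      exact (ι ⟨c, hc⟩).2
    · intro c hc c' hc' he
      simp only [hc, hc', dif_pos] at he
      have := ι.injective (Subtype.ext he)
      exact congrArg Subtype.val this
  choose G hG1 hG2 using hG
  set g : ℕ → ℕ := fun c => G (pt Y c) c with hg
  have hin : ∀ c i, c ∈ Y i → c ∈ cls Y (pt Y c) := fun c i hc => mem_cls.2 ⟨⟨i, hc⟩, rfl⟩
  have hpt : ∀ c i, c ∈ Y i → pt X (g c) = pt Y c := fun c i hc =>
    (mem_cls.1 (hG1 _ c (hin c i hc))).2
  have hinj : ∀ i j, ∀ a ∈ Y i, ∀ b ∈ Y j, g a = g b → a = b := by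
    intro i j a ha b hb hab
    have h1 : pt Y a = pt Y b := by rw [← hpt a i ha, ← hpt b j hb, hab]
    have h2 := hin b j hb
    rw [← h1] at h2
    refine hG2 (pt Y a) a (hin a i ha) b h2 ?_
    have h3 : g b = G (pt Y a) b := by rw [hg]; simp only; rw [h1]
    rw [← h3]
    exact hab
  have hX : ∀ i, X i ∩ (univ.biUnion Y).image g = (Y i).image g := by
    intro i
    ext c
    simp only [mem_inter, mem_image, mem_biUnion, mem_univ, true_and]
    constructor
    · rintro ⟨hc, a, ⟨j, ha⟩, rfl⟩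
      refine ⟨a, ?_, rfl⟩
      rw [← mem_pt, ← hpt a j ha, mem_pt]
      exact hc
    · rintro ⟨a, ha, rfl⟩
      refine ⟨?_, a, ⟨i, ha⟩, rfl⟩
      rw [← mem_pt, hpt a i ha, mem_pt]
      exact ha
  refine ⟨(univ.biUnion Y).image g, fun i => ?_, fun d hd => ?_⟩
  · rw [hX]
    exact card_image_of_injOn fun a ha b hb hab => hinj i i a ha b hb hab
  · refine hd.map id g hinj fun i a ha => ?_
    rw [hX]
    exact mem_image_of_mem g ha

/-- The palette with `m s` colours of kind `s`. -/
def canon (m : Finset (Fin K) → ℕ) (i : Fin K) : Finset ℕ :=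
  (univ.filter fun s : Finset (Fin K) => i ∈ s).biUnion fun s =>
    (range (m s)).image fun j => Encodable.encode (s, j)

theorem mem_canon {m : Finset (Fin K) → ℕ} {i : Fin K} {s : Finset (Fin K)} {j : ℕ} :
    Encodable.encode (s, j) ∈ canon m i ↔ i ∈ s ∧ j < m s := by
  unfold canon
  simp only [mem_biUnion, mem_filter, mem_univ, true_and, mem_image, mem_range]
  constructor
  · rintro ⟨s', hs', j', hj', he⟩
    have := Encodable.encode_injective he
    obtain ⟨rfl, rfl⟩ := Prod.mk.inj this
    exact ⟨hs', hj'⟩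
  · exact fun h => ⟨s, h.1, j, h.2, rfl⟩

theorem canon_form {m : Finset (Fin K) → ℕ} {i : Fin K} {c : ℕ} (h : c ∈ canon m i) :
    ∃ (s : Finset (Fin K)) (j : ℕ), c = Encodable.encode (s, j) ∧ j < m s := by
  unfold canon at h
  simp only [mem_biUnion, mem_filter, mem_univ, true_and, mem_image, mem_range] at h
  obtain ⟨s, _, j, hj, rfl⟩ := h
  exact ⟨s, j, rfl, hj⟩

theorem pt_canon {m : Finset (Fin K) → ℕ} {s : Finset (Fin K)} {j : ℕ} (hj : j < m s) :
    pt (canon m) (Encodable.encode (s, j)) = s := by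
  ext i
  rw [mem_pt, mem_canon]
  exact and_iff_left hj

theorem card_cls_canon (m : Finset (Fin K) → ℕ) (s : Finset (Fin K)) (hs : s.Nonempty) :
    (cls (canon m) s).card = m s := by
  have : cls (canon m) s = (range (m s)).image fun j => Encodable.encode (s, j) := by
    ext c
    rw [mem_cls, mem_image]
    constructor
    · rintro ⟨⟨i, hi⟩, hc⟩
      obtain ⟨s', j, rfl, hj⟩ := canon_form hi
      rw [pt_canon hj] at hc
      subst hc
      exact ⟨j, mem_range.2 hj, rfl⟩
    · rintro ⟨j, hj, rfl⟩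
      obtain ⟨i, hi⟩ := hs
      exact ⟨⟨i, mem_canon.2 ⟨hi, mem_range.1 hj⟩⟩, pt_canon (mem_range.1 hj)⟩
  rw [this, card_image_of_injective, card_range]
  intro a b hab
  have := Encodable.encode_injective hab
  exact (Prod.mk.inj this).2

theorem cls_empty (X : Fin K → Finset ℕ) : cls X ∅ = ∅ := by
  rw [eq_empty_iff_forall_notMem]
  intro c hc
  obtain ⟨⟨i, hi⟩, h⟩ := mem_cls.1 hc
  rw [← mem_pt, h] at hi
  exact notMem_empty i hi

/-- The number of the colours of each kind, for lists with `v none` colours. -/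
def Bal (K : ℕ) (v : Option (Finset (Fin K)) → ℕ) : Prop :=
  1 ≤ v none ∧ ∀ i : Fin K, ∑ s ∈ univ.filter (fun s : Finset (Fin K) => i ∈ s), v (some s) = v none

theorem finite_minimal (K : ℕ) : {v | Minimal (Bal K) v}.Finite :=
  WellQuasiOrderedLE.finite_of_isAntichain (setOfPred_minimal_antichain _)

theorem exists_min {v : Option (Finset (Fin K)) → ℕ} (hv : Bal K v) :
    ∃ m, Minimal (Bal K) m ∧ m ≤ v := by
  obtain ⟨m, h1, h2⟩ := exists_minimal_le_of_wellFoundedLT (Bal K) v hv
  exact ⟨m, h2, h1⟩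

/-- The finitely many palettes. -/
noncomputable def systems (K : ℕ) : Finset (ℕ × (Fin K → Finset ℕ)) :=
  ((finite_minimal K).toFinset.filter fun v => 3 ≤ v none).image fun v => (v none, canon fun s => v (some s))

theorem card_canon {v : Option (Finset (Fin K)) → ℕ} (hv : Bal K v) (i : Fin K) :
    (canon (fun s => v (some s)) i).card = v none := by
  rw [card_eq_sum, ← hv.2 i]
  refine sum_congr rfl fun s hs => ?_
  exact card_cls_canon _ _ ⟨i, (mem_filter.1 hs).2⟩

theorem systems_card (K : ℕ) : ∀ p ∈ systems K, ∀ i, (p.2 i).card = p.1 := by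
  intro p hp i
  obtain ⟨v, hv, rfl⟩ := mem_image.1 hp
  have h1 : Minimal (Bal K) v := (Set.Finite.mem_toFinset (finite_minimal K)).1 (mem_filter.1 hv).1
  exact card_canon h1.1 i

theorem solvable_of_systems (K : ℕ) (h : ∀ p ∈ systems K, Solvable p.1 p.2) :
    ∀ (D : ℕ) (X : Fin K → Finset ℕ), (∀ i, (X i).card = D) → Solvable D X := by
  refine reduce fun D X hD hX => ?_
  let v : Option (Finset (Fin K)) → ℕ := fun o => o.elim D fun s => (cls X s).card
  have hv : Bal K v := ⟨hD, fun i => (card_eq_sum X i).symm.trans (hX i)⟩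
  obtain ⟨m, hm, hmv⟩ := exists_min hv
  obtain ⟨P, hP1, hP2⟩ := embed (X := X) (Y := canon fun s => m (some s)) (by
    intro s
    rcases s.eq_empty_or_nonempty with rfl | hs
    · rw [cls_empty]; exact Nat.zero_le _
    · rw [card_cls_canon _ _ hs]
      exact hmv (some s))
  have hc := card_canon hm.1
  refine ⟨m none, P, hm.1.1, hmv none, fun i => (hP1 i).trans (hc i), hP2 _ ?_⟩
  by_cases h3 : 3 ≤ m none
  · exact h _ (mem_image.2 ⟨m, mem_filter.2 ⟨(Set.Finite.mem_toFinset (finite_minimal K)).2 hm, h3⟩, rfl⟩)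
  · have h4 : m none = 1 ∨ m none = 2 := by have := hm.1.1; omega
    rcases h4 with h4 | h4
    · rw [h4]
      refine solvable_one fun i => ?_
      rw [← card_pos, hc i, h4]
      exact Nat.one_pos
    · rw [h4]
      refine solvable_two fun i => ?_
      rw [hc i, h4]

end Pool.Agent.J4.H16.FL
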