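import Pool.Agent.J4.H16.FL.Dick
import Pool.Agent.J4.H16.FL.Arith

set_option autoImplicit false

/-!
Three and four lists: the indecomposable palettes.
-/

namespace Pool.Agent.J4.H16.FL

open Finset

/-- The palette whose colours are `0, 1, …, n - 1`; the colour `j` lies in the lists in `ℓ j`. -/
def fam {K n : ℕ} (ℓ : Fin n → Finset (Fin K)) (i : Fin K) : Finset ℕ :=
  (univ.filter fun j => i ∈ ℓ j).image Fin.val

theorem card_cls_fam {K n : ℕ} (ℓ : Fin n → Finset (Fin K)) (s : Finset (Fin K)) :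
    (cls (fam ℓ) s).card ≤ (univ.filter fun j => ℓ j = s).card := by
  refine (card_le_card ?_).trans (card_image_le (s := univ.filter fun j => ℓ j = s) (f := Fin.val))
  intro c hc
  obtain ⟨⟨i, hi⟩, h⟩ := mem_cls.1 hc
  obtain ⟨j, hj, rfl⟩ := mem_image.1 hi
  refine mem_image.2 ⟨j, mem_filter.2 ⟨mem_univ _, ?_⟩, rfl⟩
  rw [← h]
  ext i'
  rw [mem_pt]
  constructor
  · exact fun h' => mem_image.2 ⟨j, mem_filter.2 ⟨mem_univ _, h'⟩, rfl⟩
  · intro h'
    obtain ⟨j', hj', he⟩ := mem_image.1 h'
    rw [Fin.ext he] at hj'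
    exact (mem_filter.1 hj').2

/-- What a piece of a palette is for the induction. -/
def Piece {K : ℕ} (D : ℕ) (X : Fin K → Finset ℕ) : Prop :=
  ∃ (d : ℕ) (P : Finset ℕ), 1 ≤ d ∧ d ≤ D ∧ (∀ i, (X i ∩ P).card = d) ∧ Solvable d fun i => X i ∩ P

theorem piece {K n d D : ℕ} {X : Fin K → Finset ℕ} (hX : ∀ i, (X i).card = D) (i0 : Fin K)
    (ℓ : Fin n → Finset (Fin K)) (c : Fin n → ℕ)
    (hc : ∀ j, (univ.filter fun k => ℓ k = ℓ j).card ≤ c j) (h : ∀ j, c j ≤ (cls X (ℓ j)).card)
    (hd : 1 ≤ d) (hdeg : ∀ i, (fam ℓ i).card = d) (hs : Solvable d (fam ℓ)) : Piece D X := by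
  obtain ⟨P, hP1, hP2⟩ := embed (X := X) (Y := fam ℓ) (by
    intro s
    refine (card_cls_fam ℓ s).trans ?_
    by_cases hj : ∃ j, ℓ j = s
    · obtain ⟨j, rfl⟩ := hj
      exact (hc j).trans (h j)
    · push Not at hj
      rw [filter_false_of_mem fun j _ => hj j]
      exact Nat.zero_le _)
  have h2 : ∀ i, (X i ∩ P).card = d := fun i => (hP1 i).trans (hdeg i)
  refine ⟨d, P, hd, ?_, h2, hP2 d hs⟩
  rw [← hX i0, ← h2 i0]
  exact card_le_card inter_subset_left

theorem small {K d : ℕ} {X : Fin K → Finset ℕ} (hd : d = 1 ∨ d = 2) (h : ∀ i, (X i).card = d) :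
    Solvable d X := by
  rcases hd with rfl | rfl
  · exact solvable_one fun i => by rw [← card_pos, h i]; exact Nat.one_pos
  · exact solvable_two fun i => (h i).ge

theorem filter4 (i : Fin 4) : (univ.filter fun s : Finset (Fin 4) => i ∈ s) =
    (![{{0}, {0, 1}, {0, 2}, {0, 1, 2}, {0, 3}, {0, 1, 3}, {0, 2, 3}, {0, 1, 2, 3}},
      {{1}, {0, 1}, {1, 2}, {0, 1, 2}, {1, 3}, {0, 1, 3}, {1, 2, 3}, {0, 1, 2, 3}},
      {{2}, {0, 2}, {1, 2}, {0, 1, 2}, {2, 3}, {0, 2, 3}, {1, 2, 3}, {0, 1, 2, 3}},
      {{3}, {0, 3}, {1, 3}, {0, 1, 3}, {2, 3}, {0, 2, 3}, {1, 2, 3}, {0, 1, 2, 3}}] :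
      Fin 4 → Finset (Finset (Fin 4))) i := by
  revert i; decide

theorem filter3 (i : Fin 3) : (univ.filter fun s : Finset (Fin 3) => i ∈ s) =
    (![{{0}, {0, 1}, {0, 2}, {0, 1, 2}}, {{1}, {0, 1}, {1, 2}, {0, 1, 2}},
      {{2}, {0, 2}, {1, 2}, {0, 1, 2}}] : Fin 3 → Finset (Finset (Fin 3))) i := by
  revert i; decide

theorem piece_three {D : ℕ} {X : Fin 3 → Finset ℕ} (hD : 1 ≤ D) (hX : ∀ i, (X i).card = D) :
    Piece D X := by
  have e : ∀ i, ∑ s ∈ univ.filter (fun s : Finset (Fin 3) => i ∈ s), (cls X s).card = D := fun i =>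
    (card_eq_sum X i).symm.trans (hX i)
  have e0 := e 0
  have e1 := e 1
  have e2 := e 2
  rw [filter3] at e0 e1 e2
  simp only [Matrix.cons_val] at e0 e1 e2
  repeat rw [sum_insert (by decide)] at e0
  repeat rw [sum_insert (by decide)] at e1
  repeat rw [sum_insert (by decide)] at e2
  rw [sum_singleton] at e0 e1 e2
  exact arith3 (n1 := (cls X {0}).card) (n2 := (cls X {1}).card) (n3 := (cls X {0, 1}).card)
    (n4 := (cls X {2}).card) (n5 := (cls X {0, 2}).card) (n6 := (cls X {1, 2}).card)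
    (n7 := (cls X {0, 1, 2}).card) hD (by omega) (by omega) (by omega)
    (fun h7 => piece (d := 1) hX 0 ![{0, 1, 2}] ![1] (by decide)
      (by intro j; fin_cases j; exacts [h7])
      (by decide) (by decide) (small (by decide) (by decide)))
    (fun h1 h6 => piece (d := 1) hX 0 ![{0}, {1, 2}] ![1, 1] (by decide)
      (by intro j; fin_cases j; exacts [h1, h6])
      (by decide) (by decide) (small (by decide) (by decide)))
    (fun h2 h5 => piece (d := 1) hX 0 ![{1}, {0, 2}] ![1, 1] (by decide)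
      (by intro j; fin_cases j; exacts [h2, h5])
      (by decide) (by decide) (small (by decide) (by decide)))
    (fun h4 h3 => piece (d := 1) hX 0 ![{2}, {0, 1}] ![1, 1] (by decide)
      (by intro j; fin_cases j; exacts [h4, h3])
      (by decide) (by decide) (small (by decide) (by decide)))
    (fun h1 h2 h4 => piece (d := 1) hX 0 ![{0}, {1}, {2}] ![1, 1, 1] (by decide)
      (by intro j; fin_cases j; exacts [h1, h2, h4])
      (by decide) (by decide) (small (by decide) (by decide)))
    (fun h3 h5 h6 => piece (d := 2) hX 0 ![{0, 1}, {0, 2}, {1, 2}] ![1, 1, 1] (by decide)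
      (by intro j; fin_cases j; exacts [h3, h5, h6])
      (by decide) (by decide) (small (by decide) (by decide)))

/-- The four triples of colours from a palette of four colours. -/
def palA : Fin 4 → Finset ℕ := ![{0, 1, 2}, {0, 1, 3}, {0, 2, 3}, {1, 2, 3}]

/-- One list with three private colours against three lists with two common colours. -/
def palB : Fin 4 → Finset ℕ := ![{0, 1, 2}, {0, 3, 4}, {1, 3, 4}, {2, 3, 4}]

theorem piece_four (hA : Solvable 3 palA) (hB : Solvable 3 palB) {D : ℕ} {X : Fin 4 → Finset ℕ}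
    (hD : 1 ≤ D) (hX : ∀ i, (X i).card = D) : Piece D X := by
  have e : ∀ i, ∑ s ∈ univ.filter (fun s : Finset (Fin 4) => i ∈ s), (cls X s).card = D := fun i =>
    (card_eq_sum X i).symm.trans (hX i)
  have e0 := e 0
  have e1 := e 1
  have e2 := e 2
  have e3 := e 3
  rw [filter4] at e0 e1 e2 e3
  simp only [Matrix.cons_val] at e0 e1 e2 e3
  repeat rw [sum_insert (by decide)] at e0
  repeat rw [sum_insert (by decide)] at e1
  repeat rw [sum_insert (by decide)] at e2
  repeat rw [sum_insert (by decide)] at e3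
  rw [sum_singleton] at e0 e1 e2 e3
  exact arith4 (n1 := (cls X {0}).card) (n2 := (cls X {1}).card) (n3 := (cls X {0, 1}).card)
    (n4 := (cls X {2}).card) (n5 := (cls X {0, 2}).card) (n6 := (cls X {1, 2}).card)
    (n7 := (cls X {0, 1, 2}).card) (n8 := (cls X {3}).card) (n9 := (cls X {0, 3}).card)
    (n10 := (cls X {1, 3}).card) (n11 := (cls X {0, 1, 3}).card) (n12 := (cls X {2, 3}).card)
    (n13 := (cls X {0, 2, 3}).card) (n14 := (cls X {1, 2, 3}).card) (n15 := (cls X {0, 1, 2, 3}).card)
    hD (by omega) (by omega) (by omega) (by omega)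
    (fun h15 => piece (d := 1) hX 0 ![{0, 1, 2, 3}] ![1] (by decide)
      (by intro j; fin_cases j; exacts [h15])
      (by decide) (by decide) (small (by decide) (by decide)))
    (fun h4 h11 => piece (d := 1) hX 0 ![{2}, {0, 1, 3}] ![1, 1] (by decide)
      (by intro j; fin_cases j; exacts [h4, h11])
      (by decide) (by decide) (small (by decide) (by decide)))
    (fun h7 h8 => piece (d := 1) hX 0 ![{0, 1, 2}, {3}] ![1, 1] (by decide)
      (by intro j; fin_cases j; exacts [h7, h8])
      (by decide) (by decide) (small (by decide) (by decide)))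
    (fun h3 h4 h8 => piece (d := 1) hX 0 ![{0, 1}, {2}, {3}] ![1, 1, 1] (by decide)
      (by intro j; fin_cases j; exacts [h3, h4, h8])
      (by decide) (by decide) (small (by decide) (by decide)))
    (fun h5 h10 => piece (d := 1) hX 0 ![{0, 2}, {1, 3}] ![1, 1] (by decide)
      (by intro j; fin_cases j; exacts [h5, h10])
      (by decide) (by decide) (small (by decide) (by decide)))
    (fun h1 h14 => piece (d := 1) hX 0 ![{0}, {1, 2, 3}] ![1, 1] (by decide)
      (by intro j; fin_cases j; exacts [h1, h14])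
      (by decide) (by decide) (small (by decide) (by decide)))
    (fun h6 h9 => piece (d := 1) hX 0 ![{1, 2}, {0, 3}] ![1, 1] (by decide)
      (by intro j; fin_cases j; exacts [h6, h9])
      (by decide) (by decide) (small (by decide) (by decide)))
    (fun h1 h2 h4 h8 => piece (d := 1) hX 0 ![{0}, {1}, {2}, {3}] ![1, 1, 1, 1] (by decide)
      (by intro j; fin_cases j; exacts [h1, h2, h4, h8])
      (by decide) (by decide) (small (by decide) (by decide)))
    (fun h1 h6 h8 => piece (d := 1) hX 0 ![{0}, {1, 2}, {3}] ![1, 1, 1] (by decide)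
      (by intro j; fin_cases j; exacts [h1, h6, h8])
      (by decide) (by decide) (small (by decide) (by decide)))
    (fun h1 h4 h10 => piece (d := 1) hX 0 ![{0}, {2}, {1, 3}] ![1, 1, 1] (by decide)
      (by intro j; fin_cases j; exacts [h1, h4, h10])
      (by decide) (by decide) (small (by decide) (by decide)))
    (fun h2 h4 h9 => piece (d := 1) hX 0 ![{1}, {2}, {0, 3}] ![1, 1, 1] (by decide)
      (by intro j; fin_cases j; exacts [h2, h4, h9])
      (by decide) (by decide) (small (by decide) (by decide)))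
    (fun h2 h5 h8 => piece (d := 1) hX 0 ![{1}, {0, 2}, {3}] ![1, 1, 1] (by decide)
      (by intro j; fin_cases j; exacts [h2, h5, h8])
      (by decide) (by decide) (small (by decide) (by decide)))
    (fun h1 h2 h12 => piece (d := 1) hX 0 ![{0}, {1}, {2, 3}] ![1, 1, 1] (by decide)
      (by intro j; fin_cases j; exacts [h1, h2, h12])
      (by decide) (by decide) (small (by decide) (by decide)))
    (fun h3 h12 => piece (d := 1) hX 0 ![{0, 1}, {2, 3}] ![1, 1] (by decide)
      (by intro j; fin_cases j; exacts [h3, h12])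
      (by decide) (by decide) (small (by decide) (by decide)))
    (fun h2 h13 => piece (d := 1) hX 0 ![{1}, {0, 2, 3}] ![1, 1] (by decide)
      (by intro j; fin_cases j; exacts [h2, h13])
      (by decide) (by decide) (small (by decide) (by decide)))
    (fun h1 h6 h10 h12 => piece (d := 2) hX 0 ![{0}, {0}, {1, 2}, {1, 3}, {2, 3}] ![2, 2, 1, 1, 1] (by decide)
      (by intro j; fin_cases j; exacts [h1, h1, h6, h10, h12])
      (by decide) (by decide) (small (by decide) (by decide)))
    (fun h1 h6 h11 h12 => piece (d := 2) hX 0 ![{0}, {1, 2}, {0, 1, 3}, {2, 3}] ![1, 1, 1, 1] (by decide)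
      (by intro j; fin_cases j; exacts [h1, h6, h11, h12])
      (by decide) (by decide) (small (by decide) (by decide)))
    (fun h2 h7 h9 h12 => piece (d := 2) hX 0 ![{1}, {0, 1, 2}, {0, 3}, {2, 3}] ![1, 1, 1, 1] (by decide)
      (by intro j; fin_cases j; exacts [h2, h7, h9, h12])
      (by decide) (by decide) (small (by decide) (by decide)))
    (fun h1 h6 h10 h13 => piece (d := 2) hX 0 ![{0}, {1, 2}, {1, 3}, {0, 2, 3}] ![1, 1, 1, 1] (by decide)
      (by intro j; fin_cases j; exacts [h1, h6, h10, h13])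
      (by decide) (by decide) (small (by decide) (by decide)))
    (fun h1 h7 h10 h12 => piece (d := 2) hX 0 ![{0}, {0, 1, 2}, {1, 3}, {2, 3}] ![1, 1, 1, 1] (by decide)
      (by intro j; fin_cases j; exacts [h1, h7, h10, h12])
      (by decide) (by decide) (small (by decide) (by decide)))
    (fun h5 h11 h14 => piece (d := 2) hX 0 ![{0, 2}, {0, 1, 3}, {1, 2, 3}] ![1, 1, 1] (by decide)
      (by intro j; fin_cases j; exacts [h5, h11, h14])
      (by decide) (by decide) (small (by decide) (by decide)))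
    (fun h2 h5 h11 h12 => piece (d := 2) hX 0 ![{1}, {0, 2}, {0, 1, 3}, {2, 3}] ![1, 1, 1, 1] (by decide)
      (by intro j; fin_cases j; exacts [h2, h5, h11, h12])
      (by decide) (by decide) (small (by decide) (by decide)))
    (fun h7 h11 h12 => piece (d := 2) hX 0 ![{0, 1, 2}, {0, 1, 3}, {2, 3}] ![1, 1, 1] (by decide)
      (by intro j; fin_cases j; exacts [h7, h11, h12])
      (by decide) (by decide) (small (by decide) (by decide)))
    (fun h3 h13 h14 => piece (d := 2) hX 0 ![{0, 1}, {0, 2, 3}, {1, 2, 3}] ![1, 1, 1] (by decide)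
      (by intro j; fin_cases j; exacts [h3, h13, h14])
      (by decide) (by decide) (small (by decide) (by decide)))
    (fun h3 h5 h6 h8 => piece (d := 2) hX 0 ![{0, 1}, {0, 2}, {1, 2}, {3}, {3}] ![1, 1, 1, 2, 2] (by decide)
      (by intro j; fin_cases j; exacts [h3, h5, h6, h8, h8])
      (by decide) (by decide) (small (by decide) (by decide)))
    (fun h3 h4 h10 h13 => piece (d := 2) hX 0 ![{0, 1}, {2}, {1, 3}, {0, 2, 3}] ![1, 1, 1, 1] (by decide)
      (by intro j; fin_cases j; exacts [h3, h4, h10, h13])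
      (by decide) (by decide) (small (by decide) (by decide)))
    (fun h6 h11 h13 => piece (d := 2) hX 0 ![{1, 2}, {0, 1, 3}, {0, 2, 3}] ![1, 1, 1] (by decide)
      (by intro j; fin_cases j; exacts [h6, h11, h13])
      (by decide) (by decide) (small (by decide) (by decide)))
    (fun h5 h6 h8 h11 => piece (d := 2) hX 0 ![{0, 2}, {1, 2}, {3}, {0, 1, 3}] ![1, 1, 1, 1] (by decide)
      (by intro j; fin_cases j; exacts [h5, h6, h8, h11])
      (by decide) (by decide) (small (by decide) (by decide)))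
    (fun h3 h5 h8 h14 => piece (d := 2) hX 0 ![{0, 1}, {0, 2}, {3}, {1, 2, 3}] ![1, 1, 1, 1] (by decide)
      (by intro j; fin_cases j; exacts [h3, h5, h8, h14])
      (by decide) (by decide) (small (by decide) (by decide)))
    (fun h2 h5 h9 h14 => piece (d := 2) hX 0 ![{1}, {0, 2}, {0, 3}, {1, 2, 3}] ![1, 1, 1, 1] (by decide)
      (by intro j; fin_cases j; exacts [h2, h5, h9, h14])
      (by decide) (by decide) (small (by decide) (by decide)))
    (fun h7 h9 h14 => piece (d := 2) hX 0 ![{0, 1, 2}, {0, 3}, {1, 2, 3}] ![1, 1, 1] (by decide)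
      (by intro j; fin_cases j; exacts [h7, h9, h14])
      (by decide) (by decide) (small (by decide) (by decide)))
    (fun h3 h6 h8 h13 => piece (d := 2) hX 0 ![{0, 1}, {1, 2}, {3}, {0, 2, 3}] ![1, 1, 1, 1] (by decide)
      (by intro j; fin_cases j; exacts [h3, h6, h8, h13])
      (by decide) (by decide) (small (by decide) (by decide)))
    (fun h2 h5 h9 h12 => piece (d := 2) hX 0 ![{1}, {1}, {0, 2}, {0, 3}, {2, 3}] ![2, 2, 1, 1, 1] (by decide)
      (by intro j; fin_cases j; exacts [h2, h2, h5, h9, h12])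
      (by decide) (by decide) (small (by decide) (by decide)))
    (fun h3 h4 h9 h10 => piece (d := 2) hX 0 ![{0, 1}, {2}, {2}, {0, 3}, {1, 3}] ![1, 2, 2, 1, 1] (by decide)
      (by intro j; fin_cases j; exacts [h3, h4, h4, h9, h10])
      (by decide) (by decide) (small (by decide) (by decide)))
    (fun h7 h10 h13 => piece (d := 2) hX 0 ![{0, 1, 2}, {1, 3}, {0, 2, 3}] ![1, 1, 1] (by decide)
      (by intro j; fin_cases j; exacts [h7, h10, h13])
      (by decide) (by decide) (small (by decide) (by decide)))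
    (fun h4 h7 h9 h10 => piece (d := 2) hX 0 ![{2}, {0, 1, 2}, {0, 3}, {1, 3}] ![1, 1, 1, 1] (by decide)
      (by intro j; fin_cases j; exacts [h4, h7, h9, h10])
      (by decide) (by decide) (small (by decide) (by decide)))
    (fun h3 h4 h9 h14 => piece (d := 2) hX 0 ![{0, 1}, {2}, {0, 3}, {1, 2, 3}] ![1, 1, 1, 1] (by decide)
      (by intro j; fin_cases j; exacts [h3, h4, h9, h14])
      (by decide) (by decide) (small (by decide) (by decide)))
    (fun h3 h5 h9 h14 => piece (d := 3) hX 0 ![{0, 1}, {0, 2}, {0, 3}, {1, 2, 3}, {1, 2, 3}] ![1, 1, 1, 2, 2] (by decide)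
      (by intro j; fin_cases j; exacts [h3, h5, h9, h14, h14])
      (by decide) (by decide) (hB.map ![0, 1, 2, 3] (fun a => [0, 1, 2, 3, 4].getD a 0) (by decide) (by decide)))
    (fun h3 h6 h10 h13 => piece (d := 3) hX 0 ![{0, 1}, {1, 2}, {1, 3}, {0, 2, 3}, {0, 2, 3}] ![1, 1, 1, 2, 2] (by decide)
      (by intro j; fin_cases j; exacts [h3, h6, h10, h13, h13])
      (by decide) (by decide) (hB.map ![1, 0, 2, 3] (fun a => [0, 1, 2, 3, 4].getD a 0) (by decide) (by decide)))
    (fun h5 h6 h11 h12 => piece (d := 3) hX 0 ![{0, 2}, {1, 2}, {0, 1, 3}, {0, 1, 3}, {2, 3}] ![1, 1, 2, 2, 1] (by decide)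
      (by intro j; fin_cases j; exacts [h5, h6, h11, h11, h12])
      (by decide) (by decide) (hB.map ![1, 2, 0, 3] (fun a => [0, 1, 4, 2, 3].getD a 0) (by decide) (by decide)))
    (fun h7 h9 h10 h12 => piece (d := 3) hX 0 ![{0, 1, 2}, {0, 1, 2}, {0, 3}, {1, 3}, {2, 3}] ![2, 2, 1, 1, 1] (by decide)
      (by intro j; fin_cases j; exacts [h7, h7, h9, h10, h12])
      (by decide) (by decide) (hB.map ![1, 2, 3, 0] (fun a => [2, 3, 4, 0, 1].getD a 0) (by decide) (by decide)))
    (fun h7 h11 h13 h14 => piece (d := 3) hX 0 ![{0, 1, 2}, {0, 1, 3}, {0, 2, 3}, {1, 2, 3}] ![1, 1, 1, 1] (by decide)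
      (by intro j; fin_cases j; exacts [h7, h11, h13, h14])
      (by decide) (by decide) (hA.map ![0, 1, 2, 3] (fun a => [0, 1, 2, 3].getD a 0) (by decide) (by decide)))

end Pool.Agent.J4.H16.FL
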