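import Pool.Agent.J4.H16.FL.Four

set_option autoImplicit false

/-!
List edge colourings from few different lists: the main theorem.
-/

namespace Pool.Agent.J4.H16.FL

open Finset

/-- The palette is divided into blocks such that every list has at least `d j` colours in the block `j`
and the sum of the numbers `d j` is at least the chromatic index, and for each block `d j ≤ 2` or the
intersections of the lists with the block are at most `K` different sets. -/
def BlockLists (K : ℕ) : Prop :=
  ∀ (V : Type) [Finite V] (G : SimpleGraph V) (L : G.edgeSet → Finset ℕ) (m : ℕ) (B : ℕ → Fin m)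
    (d : Fin m → ℕ), G.lineGraph.Colorable (∑ j, d j) →
    (∀ e j, d j ≤ ((L e).filter fun c => B c = j).card) →
    (∀ j, d j ≤ 2 ∨ (Set.range fun e => (L e).filter fun c => B c = j).ncard ≤ K) →
    ListColourable G L

theorem exists_types {E : Type} [Finite E] {K d : ℕ} (L : E → Finset ℕ) (hL : ∀ e, d ≤ (L e).card)
    (hK : (Set.range L).ncard ≤ K) : ∃ (X : Fin K → Finset ℕ) (t : E → Fin K),
      (∀ i, (X i).card = d) ∧ ∀ e, X (t e) ⊆ L e := by
  classical
  have hfin : (Set.range L).Finite := Set.finite_range L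
  have : Fintype (Set.range L) := hfin.fintype
  rw [Set.ncard_eq_toFinset_card' , Set.toFinset_card] at hK
  obtain ⟨ι⟩ : Nonempty (Set.range L ↪ Fin K) := by
    refine Function.Embedding.nonempty_of_card_le ?_
    rw [Fintype.card_fin]
    exact hK
  have hX : ∀ j : Fin K, ∃ x : Finset ℕ, x.card = d ∧ ∀ s : Set.range L, ι s = j → x ⊆ s.1 := by
    intro j
    by_cases hj : ∃ s : Set.range L, ι s = j
    · obtain ⟨⟨s, ⟨e, rfl⟩⟩, hs⟩ := hj
      obtain ⟨x, hx1, hx2⟩ := exists_subset_card_eq (hL e)
      refine ⟨x, hx2, fun s' hs' => ?_⟩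
      have := ι.injective (hs'.trans hs.symm)
      rw [this]
      exact hx1
    · push Not at hj
      exact ⟨range d, card_range d, fun s hs => absurd hs (hj s)⟩
  choose X hX1 hX2 using hX
  exact ⟨X, fun e => ι ⟨L e, ⟨e, rfl⟩⟩, hX1, fun e => hX2 _ ⟨L e, ⟨e, rfl⟩⟩ rfl⟩

theorem blockLists_of {K : ℕ} (h : ∀ (D : ℕ) (X : Fin K → Finset ℕ), (∀ i, (X i).card = D) →
    Solvable D X) : BlockLists K := by
  classical
  intro V _ G L m B d hG hL hK
  obtain ⟨C⟩ := hG
  let C' : G.edgeSet → Σ j, Fin (d j) := fun e => finSigmaFinEquiv.symm (C e)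
  have hC' : ∀ e e', G.lineGraph.Adj e e' → C' e ≠ C' e' := fun e e' hadj heq =>
    C.valid hadj (finSigmaFinEquiv.symm.injective heq)
  have key : ∀ j, ∃ f : G.edgeSet → ℕ,
      (∀ e, (C' e).1 = j → f e ∈ (L e).filter fun c => B c = j) ∧
      ∀ e e', (C' e).1 = j → (C' e').1 = j → G.lineGraph.Adj e e' → f e ≠ f e' := by
    intro j
    have hXt : ∃ (K' : ℕ) (X : Fin K' → Finset ℕ) (t : G.edgeSet → Fin K'), Solvable (d j) X ∧
        ∀ e, X (t e) ⊆ (L e).filter fun c => B c = j := by
      rcases hK j with h2 | hK'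
      · obtain ⟨X, t, hX, ht⟩ := exists_types (K := Nat.card G.edgeSet) (d := d j)
          (fun e : G.edgeSet => (L e).filter fun c => B c = j) (fun e => hL e j) (by
            rw [← Set.image_univ]
            refine (Set.ncard_image_le Set.finite_univ).trans ?_
            rw [Set.ncard_univ])
        refine ⟨_, X, t, ?_, ht⟩
        rcases Nat.eq_zero_or_pos (d j) with h0 | h0
        · rw [h0]
          exact solvable_zero X
        · exact small (by omega) hX
      · obtain ⟨X, t, hX, ht⟩ := exists_types (K := K) (d := d j)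
          (fun e : G.edgeSet => (L e).filter fun c => B c = j) (fun e => hL e j) hK'
        exact ⟨K, X, t, h _ X hX, ht⟩
    obtain ⟨K', X, t, hX, ht⟩ := hXt
    obtain ⟨f, hf1, hf2⟩ := hX.restrict G (fun e => (C' e).1 = j) (fun e => ((C' e).2 : ℕ))
      (fun e he => lt_of_lt_of_eq (C' e).2.2 (congrArg d he))
      (fun e e' he he' hadj heq => by
        refine hC' e e' hadj ?_
        generalize C' e = x at he heq
        generalize C' e' = y at he' heq
        obtain ⟨x1, x2⟩ := x
        obtain ⟨y1, y2⟩ := y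
        simp only at he he' heq
        subst he
        subst he'
        rw [Fin.ext heq]) t
    exact ⟨f, fun e he => ht e (hf1 e he), hf2⟩
  choose f hf1 hf2 using key
  refine ⟨fun e => f (C' e).1 e, fun e => (mem_filter.1 (hf1 _ e rfl)).1, fun e e' hadj heq => ?_⟩
  have h1 := (mem_filter.1 (hf1 _ e rfl)).2
  have h2 := (mem_filter.1 (hf1 _ e' rfl)).2
  simp only at heq
  rw [← heq, h1] at h2
  refine hf2 (C' e).1 e e' rfl h2.symm hadj ?_
  rw [heq, h2]

theorem solvable_of_blockLists {K : ℕ} (h : BlockLists K) (D : ℕ) (X : Fin K → Finset ℕ)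
    (hX : ∀ i, (X i).card = D) : Solvable D X := by
  classical
  intro V _ G hG t
  refine h V G _ 1 (fun _ => 0) (fun _ => D) (by simpa using hG) (fun e j => ?_) fun j => Or.inr ?_
  · rw [filter_true_of_mem fun _ _ => Subsingleton.elim _ _]
    exact (hX _).ge
  · have h1 : Set.range (fun e => (X (t e)).filter fun _ => (0 : Fin 1) = j) ⊆ Set.range X := by
      rintro _ ⟨e, rfl⟩
      refine ⟨t e, ?_⟩
      simp only
      rw [filter_true_of_mem fun _ _ => Subsingleton.elim _ _]
    refine (Set.ncard_le_ncard h1 (Set.finite_range X)).trans ?_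
    rw [← Set.image_univ]
    refine (Set.ncard_image_le Set.finite_univ).trans ?_
    rw [Set.ncard_univ, Nat.card_eq_fintype_card, Fintype.card_fin]

theorem blockLists_iff {K : ℕ} : BlockLists K ↔
    ∀ (D : ℕ) (X : Fin K → Finset ℕ), (∀ i, (X i).card = D) → Solvable D X :=
  ⟨solvable_of_blockLists, blockLists_of⟩

theorem all_three : ∀ (D : ℕ) (X : Fin 3 → Finset ℕ), (∀ i, (X i).card = D) → Solvable D X :=
  reduce fun _ _ hD hX => piece_three hD hX

theorem all_four (hA : Solvable 3 palA) (hB : Solvable 3 palB) :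
    ∀ (D : ℕ) (X : Fin 4 → Finset ℕ), (∀ i, (X i).card = D) → Solvable D X :=
  reduce fun _ _ hD hX => piece_four hA hB hD hX

/-- The finitely many list systems which are left. -/
noncomputable def critical : (K : ℕ) → Finset (ℕ × (Fin K → Finset ℕ))
  | 3 => ∅
  | 4 => {(3, palA), (3, palB)}
  | K => systems K

theorem critical_card (K : ℕ) : ∀ p ∈ critical K, ∀ i, (p.2 i).card = p.1 := by
  unfold critical
  split
  · intro p hp
    exact absurd hp (notMem_empty p)
  · intro p hp
    rw [mem_insert, mem_singleton] at hp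
    rcases hp with rfl | rfl
    · exact (by decide : ∀ i, (palA i).card = 3)
    · exact (by decide : ∀ i, (palB i).card = 3)
  · exact systems_card _

theorem solvable_of_critical (K : ℕ) (h : ∀ p ∈ critical K, Solvable p.1 p.2) :
    ∀ (D : ℕ) (X : Fin K → Finset ℕ), (∀ i, (X i).card = D) → Solvable D X := by
  revert h
  unfold critical
  split
  · exact fun _ => all_three
  · intro h
    exact all_four (h _ (mem_insert_self _ _)) (h _ (mem_insert_of_mem (mem_singleton_self _)))
  · exact solvable_of_systems _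

theorem main : ∃ 𝓢 : (K : ℕ) → Finset (ℕ × (Fin K → Finset ℕ)),
    𝓢 3 = ∅ ∧ 𝓢 4 = {(3, palA), (3, palB)} ∧
    ∀ K, (∀ p ∈ 𝓢 K, ∀ i, (p.2 i).card = p.1) ∧
      (BlockLists K ↔ ∀ p ∈ 𝓢 K, Solvable p.1 p.2) := by
  refine ⟨critical, rfl, rfl, fun K => ⟨critical_card K, ?_⟩⟩
  rw [blockLists_iff]
  exact ⟨fun h p hp => h _ _ (critical_card K p hp), solvable_of_critical K⟩

end Pool.Agent.J4.H16.FL
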